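import Pool.Agent.R415.PK.Main

open Finset

namespace Pool.Agent.Results.MP_1ed35b_co.NoPseudo16On20

open Classical in
/-- The average `2`-degree `m_i = (1/d_i) * ∑_{j ~ i} d_j` of the vertex `i`. -/
noncomputable def avgTwoDegree {V : Type*} [Fintype V] (G : SimpleGraph V) (i : V) : ℚ :=
  (∑ j ∈ G.neighborFinset i, (G.degree j : ℚ)) / (G.degree i : ℚ)

open Classical in
/-- `G` is a (connected) pseudo `k`-regular graph: it is connected, has at least two vertices,
every average `2`-degree equals `k`, and the degrees are not all equal. -/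
def IsPseudoRegular {V : Type*} [Fintype V] (k : ℕ) (G : SimpleGraph V) : Prop :=
  G.Connected ∧ 2 ≤ Fintype.card V ∧ (∀ i, avgTwoDegree G i = (k : ℚ)) ∧
    ¬ ∃ d : ℕ, ∀ i, G.degree i = d

/-- the set of orders of connected pseudo `k`-regular graphs -/
def orders (k : ℕ) : Set ℕ := {n | ∃ G : SimpleGraph (Fin n), IsPseudoRegular k G}

/-- edges of the complement of the example on 19 vertices -/
def edges : List (Fin 19 × Fin 19) :=
  [(0, 1), (0, 2), (1, 2), (0, 3), (0, 4), (3, 4), (5, 6), (5, 7), (5, 8), (6, 7), (6, 8),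
   (9, 10), (9, 11), (9, 12), (9, 13), (9, 14), (10, 15), (10, 16), (10, 17), (10, 18)]

def adj (i j : Fin 19) : Bool := i != j && !(edges.contains (i, j)) && !(edges.contains (j, i))

def ex : SimpleGraph (Fin 19) where
  Adj i j := adj i j = true
  symm := ⟨by decide +kernel⟩
  loopless := ⟨by decide +kernel⟩

instance : DecidableRel ex.Adj := fun i j => inferInstanceAs (Decidable (adj i j = true))

def dg (i : Fin 19) : ℕ := ![14, 16, 16, 16, 16, 15, 15, 16, 16, 13, 13, 17, 17, 17, 17, 17, 17, 17, 17] i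

theorem ex_degree (i : Fin 19) : ex.degree i = dg i := by
  revert i
  decide +kernel

theorem ex_sum (i : Fin 19) : ∑ j ∈ ex.neighborFinset i, dg j = 16 * dg i := by
  revert i
  decide +kernel

theorem ex_conn (i j : Fin 19) : i = j ∨ ex.Adj i j ∨ ∃ l, ex.Adj i l ∧ ex.Adj l j := by
  revert i j
  decide +kernel

theorem avg_eq {V : Type*} [Fintype V] (G : SimpleGraph V) [inst : DecidableRel G.Adj] (i : V) :
    avgTwoDegree G i = (∑ j ∈ G.neighborFinset i, (G.degree j : ℚ)) / (G.degree i : ℚ) := by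
  have h : inst = fun a b => Classical.propDecidable (G.Adj a b) := Subsingleton.elim _ _
  subst h
  rfl

theorem pseudo_iff {V : Type*} [Fintype V] (k : ℕ) (G : SimpleGraph V)
    [inst : DecidableRel G.Adj] :
    IsPseudoRegular k G ↔ (G.Connected ∧ 2 ≤ Fintype.card V ∧
      (∀ i, (∑ j ∈ G.neighborFinset i, (G.degree j : ℚ)) / (G.degree i : ℚ) = (k : ℚ)) ∧
      ¬ ∃ d : ℕ, ∀ i, G.degree i = d) := by
  have h : inst = fun a b => Classical.propDecidable (G.Adj a b) := Subsingleton.elim _ _
  subst h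
  exact Iff.rfl

theorem ex_pseudo : IsPseudoRegular 16 ex := by
  rw [pseudo_iff]
  refine ⟨?_, by simp, ?_, ?_⟩
  · refine SimpleGraph.Connected.mk ?_
    intro i j
    rcases ex_conn i j with h | h | ⟨l, h1, h2⟩
    · rw [h]
    · exact h.reachable
    · exact h1.reachable.trans h2.reachable
  · intro i
    have h1 : (dg i : ℚ) ≠ 0 := by
      have : dg i ≠ 0 := by
        revert i
        decide +kernel
      exact_mod_cast this
    rw [div_eq_iff (by rw [ex_degree]; exact h1)]
    simp only [ex_degree]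
    exact_mod_cast ex_sum i
  · rintro ⟨d, hd⟩
    have h0 := hd 0
    have h1 := hd 1
    rw [ex_degree] at h0 h1
    have : dg 0 = dg 1 := by rw [h0, h1]
    revert this
    decide

theorem no_pseudo : ¬ ∃ G : SimpleGraph (Fin 20), IsPseudoRegular 16 G := by
  classical
  rintro ⟨G, hG⟩
  rw [pseudo_iff] at hG
  obtain ⟨hc, -, hm, hr⟩ := hG
  have hpos : ∀ v, 0 < G.degree v := fun v => hc.preconnected.degree_pos_of_nontrivial v
  refine Pool.Agent.R415.PK.no20 G hpos ?_ ?_
  · intro v
    have h1 := hm v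
    rw [div_eq_iff (by have := hpos v; positivity)] at h1
    exact_mod_cast h1
  · by_contra hcon
    push Not at hcon
    exact hr ⟨16, hcon⟩

/-- The problem's question has a negative answer: `N(16) ≤ 19`, and there is no connected pseudo
`16`-regular graph with exactly `20` vertices. -/
theorem result : ∃ N, IsLeast (orders 16) N ∧ N ≤ 19 ∧ 20 ∉ orders 16 := by
  have h19 : 19 ∈ orders 16 := ⟨ex, ex_pseudo⟩
  refine ⟨sInf (orders 16), ⟨Nat.sInf_mem ⟨19, h19⟩, fun n hn => Nat.sInf_le hn⟩,
    Nat.sInf_le h19, no_pseudo⟩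

end Pool.Agent.Results.MP_1ed35b_co.NoPseudo16On20
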